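import Pool.Agent.H874R3.MQ.Stmts
import Pool.Agent.Helper186.ParamInt

set_option autoImplicit false

open Real Set MeasureTheory
open scoped ContDiff

namespace Pool.Agent.H12R3.MQ

open Pool.Agent.H874R3.MQ

lemma GG_eq (w : ℝ → ℝ) (s : ℝ) : GG w s = ∫ v in (0:ℝ)..2, w (s - (v - 1) ^ 2) := by
  unfold GG
  rw [intervalIntegral.integral_comp_sub_right (fun v => w (s - v ^ 2)) 1]
  norm_num

lemma XX_GG (c : ℝ) (w : ℝ → ℝ) (_hc : 0 < c) (hw : XX c w) : XX c (GG w) := by
  constructor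
  · have h := Pool.Agent.Helper186.contDiffOn_paramInt (E := ℝ) (U := Iio (1 : ℝ)) isOpen_Iio 2
      (k := fun q : ℝ × ℝ => w (q.2 - (q.1 - 1) ^ 2)) (by
        refine hw.1.comp (t := Iio 1) (by fun_prop) ?_
        intro q hq
        have h1 : q.2 < 1 := hq.2
        simp only [mem_Iio]
        nlinarith [sq_nonneg (q.1 - 1)])
    refine h.congr fun s _ => ?_
    rw [GG_eq]
  · intro s hs
    unfold GG
    have : ∀ v : ℝ, w (s - v ^ 2) = 0 := fun v => hw.2 _ (by nlinarith [sq_nonneg v])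
    simp [this]

theorem taskSm : TaskSm := by
  refine ⟨XX_GG, ?_⟩
  intro p G hp hG
  have h := Pool.Agent.Helper186.contDiffOn_paramInt (E := ℝ) (U := (univ : Set ℝ)) isOpen_univ π
      (k := fun q : ℝ × ℝ => G (q.2 - p q.2 * (1 - cos q.1)) * cos q.1) (by
        refine ContDiff.contDiffOn ?_
        have h1 : ContDiff ℝ ∞ (fun q : ℝ × ℝ => q.2 - p q.2 * (1 - cos q.1)) := by
          have := hp.comp (contDiff_snd (𝕜 := ℝ) (E := ℝ) (F := ℝ))
          have h2 : ContDiff ℝ ∞ (fun q : ℝ × ℝ => cos q.1) := contDiff_fst.cos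
          exact contDiff_snd.sub (this.mul (contDiff_const.sub h2))
        have h2 : ContDiff ℝ ∞ (fun q : ℝ × ℝ => cos q.1) := contDiff_fst.cos
        exact (hG.comp h1).mul h2)
  exact contDiffOn_univ.1 h

end Pool.Agent.H12R3.MQ
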